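import Pool.Agent.H660.PD.Main

/-!
# Isometry with distances in `A` versus distance set exactly `A`

For every `A ∈ 𝒟` the isometry relations on `𝓥_A` and on `𝓥*_A` are Borel bireducible.
-/

namespace Pool.Agent.Results.MP_c48b3b_lc.AllDistanceSets

open Pool.Agent.H660.PD Pool.Agent.H655.UR

/-- **Main result.** For the Urysohn space `U` (which exists) and for every distance set `A` of a
Polish metric space, the isometry relation on the space of all nonempty closed subsets of `U` with
all distances in `A`, and the isometry relation on the space of all nonempty closed subsets of `U`
with distance set equal to `A`, are Borel bireducible. -/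
theorem result :
    (∃ (U : Type) (_ : MetricSpace U), IsUrysohn U) ∧
      ∀ (U : Type) [MetricSpace U], IsUrysohn U →
        ∀ A : Set ℝ, IsPolishDistSet A → BorelBireducible (IsoA U A) (IsoAstar U A) := by
  refine ⟨exists_urysohn, fun U _ hU A hA => ?_⟩
  have h1 := hU.complete
  have h2 := hU.separable
  exact ⟨le_star (extP_of_urysohn hU) A hA, star_le A⟩

end Pool.Agent.Results.MP_c48b3b_lc.AllDistanceSets
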